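import Mathlib

/-!
# Brownian dichotomy, part 1: nontrivial connected subsets and chains

`b, w : [0,1] → E` continuous.  The set `b [0,1] ∩ w [0,1]` contains a connected set with two
points iff there is `m` such that for every `k` a `1/(k+1)`-chain of values `b s` at rational
times, each of them `1/(k+1)`-close to a value `w t`, joins two points at distance `> 1/(m+1)`.
-/

set_option autoImplicit false

namespace Pool.Agent.BMD

open Set Filter Topology

variable {E : Type*} [MetricSpace E]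

/-- rational times in `[0, 1]` -/
abbrev D : Type := ↥(Set.Icc (0 : ℚ) 1)

/-- `K` contains a connected set with at least two points -/
def HasC {E : Type*} [TopologicalSpace E] (K : Set E) : Prop :=
  ∃ C : Set E, C ⊆ K ∧ IsConnected C ∧ C.Nontrivial

/-- the chain condition -/
def Ch (b w : D → E) : Prop :=
  ∃ m : ℕ, ∀ k : ℕ, ∃ N : ℕ, ∃ s t : Fin (N + 1) → D,
    (∀ i, dist (b (s i)) (w (t i)) < 1 / ((k : ℝ) + 1)) ∧
    (∀ i : Fin N, dist (b (s i.castSucc)) (b (s i.succ)) < 1 / ((k : ℝ) + 1)) ∧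
    1 / ((m : ℝ) + 1) < dist (b (s 0)) (b (s (Fin.last N)))

theorem D_mem (q : D) : ((q : ℚ) : ℝ) ∈ Icc (0 : ℝ) 1 := by
  obtain ⟨h0, h1⟩ := q.2
  exact ⟨by exact_mod_cast h0, by exact_mod_cast h1⟩

/-- approximation by rational times -/
theorem approx_D {f : ℝ → E} (hf : ContinuousOn f (Icc 0 1)) {u : ℝ} (hu : u ∈ Icc (0 : ℝ) 1)
    {η : ℝ} (hη : 0 < η) : ∃ q : D, dist (f ((q : ℚ) : ℝ)) (f u) < η := by
  obtain ⟨δ, hδ, h⟩ := Metric.continuousWithinAt_iff.1 (hf u hu) η hη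
  rcases eq_or_lt_of_le hu.2 with h1 | h1
  · refine ⟨⟨1, by norm_num, le_rfl⟩, ?_⟩
    apply h
    · simp
    · simp [h1, hδ]
  · obtain ⟨q, hq1, hq2⟩ := exists_rat_btwn (lt_min h1 (lt_add_of_pos_right u hδ))
    have hq3 : (q : ℝ) < 1 := hq2.trans_le (min_le_left _ _)
    have hq4 : (q : ℝ) < u + δ := hq2.trans_le (min_le_right _ _)
    have hq0 : (0 : ℝ) ≤ q := hu.1.trans hq1.le
    refine ⟨⟨q, by exact_mod_cast hq0, by exact_mod_cast hq3.le⟩, ?_⟩
    apply h
    · exact ⟨hq0, hq3.le⟩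
    · rw [Real.dist_eq, abs_of_pos (by simpa using hq1)]
      simp only
      linarith

/-- connected sets are chainable -/
theorem exists_chain {C : Set E} (hC : IsPreconnected C) {x y : E} (hx : x ∈ C) (hy : y ∈ C)
    {ε : ℝ} (hε : 0 < ε) : ∃ N : ℕ, ∃ p : ℕ → E, p 0 = x ∧ p N = y ∧ (∀ i ≤ N, p i ∈ C) ∧
      ∀ i < N, dist (p i) (p (i + 1)) < ε := by
  refine hC.induction₂' (fun x y => y ∈ C → x ∈ C → ∃ N : ℕ, ∃ p : ℕ → E, p 0 = x ∧ p N = y ∧
    (∀ i ≤ N, p i ∈ C) ∧ ∀ i < N, dist (p i) (p (i + 1)) < ε) ?_ ?_ hx hy hy hx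
  · intro x hx
    have hb : ∀ᶠ y in 𝓝[C] x, y ∈ Metric.ball x ε :=
      mem_nhdsWithin_of_mem_nhds (Metric.ball_mem_nhds x hε)
    have key : ∀ a c : E, dist a c < ε → c ∈ C → a ∈ C → ∃ N : ℕ, ∃ p : ℕ → E, p 0 = a ∧
        p N = c ∧ (∀ i ≤ N, p i ∈ C) ∧ ∀ i < N, dist (p i) (p (i + 1)) < ε := by
      intro a c hac hc ha
      refine ⟨1, fun i => if i = 0 then a else c, by simp, by simp, ?_, ?_⟩
      · intro i _
        by_cases h0 : i = 0
        · simp [h0, ha]
        · simp [h0, hc]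
      · intro i hi
        have : i = 0 := by omega
        subst this
        simpa using hac
    filter_upwards [hb] with y hy
    rw [Metric.mem_ball] at hy
    exact ⟨fun h1 h2 => key x y (by rwa [dist_comm]) h1 h2, fun h1 h2 => key y x hy h1 h2⟩
  · intro x y z _ hyC _ hxy hyz hz hx
    obtain ⟨N, p, p0, pN, pC, pd⟩ := hxy hyC hx
    obtain ⟨M, r, r0, rM, rC, rd⟩ := hyz hz hyC
    refine ⟨N + M, fun i => if i ≤ N then p i else r (i - N), by simp [p0], ?_, ?_, ?_⟩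
    · by_cases hM : M = 0
      · subst hM
        simp only [add_zero, le_refl, if_true]
        rw [pN, ← r0, rM]
      · have : ¬ N + M ≤ N := by omega
        simp [this, rM]
    · intro i hi
      by_cases h : i ≤ N
      · simp only [h, if_true]; exact pC i h
      · simp only [h, if_false]; exact rC _ (by omega)
    · intro i hi
      by_cases h : i + 1 ≤ N
      · have h' : i ≤ N := by omega
        simp only [h, h', if_true]
        exact pd i (by omega)
      · by_cases h' : i ≤ N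
        · have hiN : i = N := by omega
          subst hiN
          simp only [le_refl, if_true, h, if_false]
          rw [pN, ← r0]
          have : i + 1 - i = 0 + 1 := by omega
          rw [this]
          exact rd 0 (by omega)
        · simp only [h, h', if_false]
          have : i + 1 - N = (i - N) + 1 := by omega
          rw [this]
          exact rd _ (by omega)

theorem ch_of_hasC {b w : ℝ → E} (hb : ContinuousOn b (Icc 0 1)) (hw : ContinuousOn w (Icc 0 1))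
    (h : HasC (b '' Icc 0 1 ∩ w '' Icc 0 1)) :
    Ch (fun q : D => b ((q : ℚ) : ℝ)) (fun q : D => w ((q : ℚ) : ℝ)) := by
  obtain ⟨C, hCK, hC, x, hx, y, hy, hxy⟩ := h
  have hd : 0 < dist x y := dist_pos.2 hxy
  obtain ⟨m, hm⟩ := exists_nat_one_div_lt (half_pos hd)
  refine ⟨m, fun k => ?_⟩
  set ε : ℝ := 1 / ((k : ℝ) + 1) with hεdef
  have hε : 0 < ε := by rw [hεdef]; positivity
  obtain ⟨N, p, p0, pN, pC, pd⟩ := exists_chain hC.isPreconnected hx hy (ε := ε / 2) (by linarith)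
  set η : ℝ := min (ε / 4) (dist x y / 4) with hηdef
  have hη : 0 < η := lt_min (by linarith) (by linarith)
  have hη1 : η ≤ ε / 4 := min_le_left _ _
  have hη2 : η ≤ dist x y / 4 := min_le_right _ _
  have hs : ∀ i : Fin (N + 1), ∃ q : D, dist (b ((q : ℚ) : ℝ)) (p i) < η := by
    intro i
    obtain ⟨u, hu, hup⟩ := (hCK (pC i (by omega))).1
    obtain ⟨q, hq⟩ := approx_D hb hu hη
    exact ⟨q, by rwa [hup] at hq⟩
  have ht : ∀ i : Fin (N + 1), ∃ q : D, dist (w ((q : ℚ) : ℝ)) (p i) < η := by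
    intro i
    obtain ⟨u, hu, hup⟩ := (hCK (pC i (by omega))).2
    obtain ⟨q, hq⟩ := approx_D hw hu hη
    exact ⟨q, by rwa [hup] at hq⟩
  choose s hs using hs
  choose t ht using ht
  refine ⟨N, s, t, ?_, ?_, ?_⟩
  · intro i
    have h1 := dist_triangle_right (b ((s i : ℚ) : ℝ)) (w ((t i : ℚ) : ℝ)) (p i)
    have h2 := hs i
    have h3 := ht i
    simp only
    linarith
  · intro i
    have h1 := dist_triangle_left (b ((s i.castSucc : ℚ) : ℝ)) (p (i + 1)) (p i)
    have h2 := hs i.castSucc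
    have h3 := hs i.succ
    have h4 := pd i i.2
    have h5 := dist_triangle_right (b ((s i.castSucc : ℚ) : ℝ)) (b ((s i.succ : ℚ) : ℝ)) (p (i + 1))
    simp only [Fin.val_castSucc, Fin.val_succ] at h2 h3
    rw [dist_comm (p i) (b _)] at h1
    simp only
    linarith
  · have h2 := hs 0
    have h3 := hs (Fin.last N)
    simp only [Fin.val_zero, Fin.val_last, p0, pN] at h2 h3
    have h1 := dist_triangle4_left (b ((s 0 : ℚ) : ℝ)) (b ((s (Fin.last N) : ℚ) : ℝ)) x y
    have h6 : dist x y ≤ dist x (b ((s 0 : ℚ) : ℝ)) + dist (b ((s 0 : ℚ) : ℝ))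
      (b ((s (Fin.last N) : ℚ) : ℝ)) + dist (b ((s (Fin.last N) : ℚ) : ℝ)) y := dist_triangle4 _ _ _ _
    rw [dist_comm x] at h6
    simp only
    linarith

theorem near_inter {b w : ℝ → E} (hb : ContinuousOn b (Icc 0 1)) (hw : ContinuousOn w (Icc 0 1))
    {η : ℝ} (hη : 0 < η) : ∃ c : ℝ, 0 < c ∧ ∀ s ∈ Icc (0 : ℝ) 1, ∀ t ∈ Icc (0 : ℝ) 1,
      dist (b s) (w t) < c → b s ∈ Metric.thickening η (b '' Icc 0 1 ∩ w '' Icc 0 1) := by
  classical
  set K := b '' Icc 0 1 ∩ w '' Icc 0 1 with hK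
  set S : Set (ℝ × ℝ) := {p | p ∈ Icc (0 : ℝ) 1 ×ˢ Icc (0 : ℝ) 1 ∧
    b p.1 ∈ (Metric.thickening η K)ᶜ} with hS
  have hb' : ContinuousOn (fun p : ℝ × ℝ => b p.1) (Icc (0 : ℝ) 1 ×ˢ Icc (0 : ℝ) 1) :=
    hb.comp continuousOn_fst (fun p hp => hp.1)
  have hw' : ContinuousOn (fun p : ℝ × ℝ => w p.2) (Icc (0 : ℝ) 1 ×ˢ Icc (0 : ℝ) 1) :=
    hw.comp continuousOn_snd (fun p hp => hp.2)
  have hSc : IsCompact S := by
    have h1 : IsCompact (Icc (0 : ℝ) 1 ×ˢ Icc (0 : ℝ) 1) := isCompact_Icc.prod isCompact_Icc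
    have h2 : IsClosed (Icc (0 : ℝ) 1 ×ˢ Icc (0 : ℝ) 1) := isClosed_Icc.prod isClosed_Icc
    have h3 : IsClosed S := by
      have := hb'.preimage_isClosed_of_isClosed h2
        (Metric.isOpen_thickening (δ := η) (E := K)).isClosed_compl
      exact this
    exact h1.of_isClosed_subset h3 fun p hp => hp.1
  have hSsub : S ⊆ Icc (0 : ℝ) 1 ×ˢ Icc (0 : ℝ) 1 := fun p hp => hp.1
  have hf : ContinuousOn (fun p : ℝ × ℝ => dist (b p.1) (w p.2)) S :=
    continuous_dist.comp_continuousOn ((hb'.mono hSsub).prodMk (hw'.mono hSsub))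
  rcases S.eq_empty_or_nonempty with hem | hne
  · refine ⟨1, one_pos, fun s hs t ht _ => ?_⟩
    by_contra hcon
    have : (s, t) ∈ S := ⟨⟨hs, ht⟩, hcon⟩
    rw [hem] at this
    exact this
  · obtain ⟨p, hp, hmin⟩ := hSc.exists_isMinOn hne hf
    have hpos : 0 < dist (b p.1) (w p.2) := by
      rw [dist_pos]
      intro heq
      apply hp.2
      apply Metric.self_subset_thickening hη K
      exact ⟨⟨p.1, hp.1.1, rfl⟩, ⟨p.2, hp.1.2, heq.symm⟩⟩
    refine ⟨dist (b p.1) (w p.2), hpos, fun s hs t ht hst => ?_⟩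
    by_contra hcon
    have h1 : (s, t) ∈ S := ⟨⟨hs, ht⟩, hcon⟩
    have h2 := hmin h1
    have h3 : dist (b p.1) (w p.2) ≤ dist (b s) (w t) := h2
    linarith

theorem hasC_of_ch {b w : ℝ → E} (hb : ContinuousOn b (Icc 0 1)) (hw : ContinuousOn w (Icc 0 1))
    (h : Ch (fun q : D => b ((q : ℚ) : ℝ)) (fun q : D => w ((q : ℚ) : ℝ))) :
    HasC (b '' Icc 0 1 ∩ w '' Icc 0 1) := by
  classical
  obtain ⟨m, hm⟩ := h
  choose N s t h1 h2 h3 using hm
  set K := b '' Icc 0 1 ∩ w '' Icc 0 1 with hK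
  have hbc : IsCompact (b '' Icc 0 1) := isCompact_Icc.image_of_continuousOn hb
  have hwc : IsCompact (w '' Icc 0 1) := isCompact_Icc.image_of_continuousOn hw
  have hKc : IsCompact K := hbc.inter hwc
  set X : ℕ → E := fun k => b ((s k 0 : ℚ) : ℝ) with hX
  set Y : ℕ → E := fun k => b ((s k (Fin.last (N k)) : ℚ) : ℝ) with hY
  have hXm : ∀ k, (X k, Y k) ∈ (b '' Icc 0 1) ×ˢ (b '' Icc 0 1) := fun k =>
    ⟨⟨_, D_mem _, rfl⟩, ⟨_, D_mem _, rfl⟩⟩
  obtain ⟨⟨x, y⟩, hxy, φ, hφ, hlim⟩ := (hbc.prod hbc).tendsto_subseq hXm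
  have hlx : Tendsto (fun k => X (φ k)) atTop (𝓝 x) := (continuous_fst.tendsto _).comp hlim
  have hly : Tendsto (fun k => Y (φ k)) atTop (𝓝 y) := (continuous_snd.tendsto _).comp hlim
  have hone : Tendsto (fun k : ℕ => 1 / (((φ k : ℕ) : ℝ) + 1)) atTop (𝓝 0) :=
    tendsto_one_div_add_atTop_nhds_zero_nat.comp hφ.tendsto_atTop
  -- the limits are in `K`
  have hlimK : ∀ (j : ∀ k, Fin (N k + 1)) (z : E),
      Tendsto (fun k => b ((s (φ k) (j (φ k)) : ℚ) : ℝ)) atTop (𝓝 z) → z ∈ K := by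
    intro j z hz
    refine ⟨?_, ?_⟩
    · exact hbc.isClosed.mem_of_tendsto hz (Eventually.of_forall fun k => ⟨_, D_mem _, rfl⟩)
    · have hz' : Tendsto (fun k => w ((t (φ k) (j (φ k)) : ℚ) : ℝ)) atTop (𝓝 z) := by
        rw [tendsto_iff_dist_tendsto_zero] at hz ⊢
        refine squeeze_zero (fun _ => dist_nonneg) (fun k => ?_)
          (by simpa using hone.add hz : Tendsto (fun k => 1 / (((φ k : ℕ) : ℝ) + 1) +
            dist (b ((s (φ k) (j (φ k)) : ℚ) : ℝ)) z) atTop (𝓝 0))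
        have h4 := dist_triangle_left (w ((t (φ k) (j (φ k)) : ℚ) : ℝ)) z
          (b ((s (φ k) (j (φ k)) : ℚ) : ℝ))
        have h5 := h1 (φ k) (j (φ k))
        simp only at h5
        linarith
      exact hwc.isClosed.mem_of_tendsto hz' (Eventually.of_forall fun k => ⟨_, D_mem _, rfl⟩)
  have hxK : x ∈ K := hlimK (fun _ => 0) x hlx
  have hyK : y ∈ K := hlimK (fun k => Fin.last (N k)) y hly
  have hxyd : 0 < dist x y := by
    have h4 : Tendsto (fun k => dist (X (φ k)) (Y (φ k))) atTop (𝓝 (dist x y)) := hlx.dist hly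
    have h5 : 1 / ((m : ℝ) + 1) ≤ dist x y :=
      ge_of_tendsto h4 (Eventually.of_forall fun k => (h3 (φ k)).le)
    have h6 : 0 < 1 / ((m : ℝ) + 1) := by positivity
    linarith
  -- the component
  have : CompactSpace K := isCompact_iff_compactSpace.1 hKc
  by_cases hcomp : (⟨y, hyK⟩ : K) ∈ connectedComponent (⟨x, hxK⟩ : K)
  · refine ⟨Subtype.val '' connectedComponent (⟨x, hxK⟩ : K), ?_, ?_, ?_⟩
    · rintro _ ⟨a, _, rfl⟩
      exact a.2
    · exact isConnected_connectedComponent.image _ continuous_subtype_val.continuousOn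
    · exact ⟨x, ⟨⟨x, hxK⟩, mem_connectedComponent, rfl⟩, y, ⟨⟨y, hyK⟩, hcomp, rfl⟩,
        dist_pos.1 hxyd⟩
  exfalso
  rw [connectedComponent_eq_iInter_isClopen, mem_iInter] at hcomp
  push Not at hcomp
  obtain ⟨⟨V, hV, hxV⟩, hyV⟩ := hcomp
  simp only at hyV
  set A : Set E := Subtype.val '' V with hA
  set B : Set E := Subtype.val '' Vᶜ with hB
  have hAc : IsCompact A := hV.1.isCompact.image continuous_subtype_val
  have hBc : IsCompact B := hV.2.isClosed_compl.isCompact.image continuous_subtype_val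
  have hAB : Disjoint A B := by
    rw [Set.disjoint_left]
    rintro _ ⟨a, ha, rfl⟩ ⟨c, hc, hac⟩
    have : a = c := Subtype.ext hac.symm
    subst this
    exact hc ha
  have hKAB : K ⊆ A ∪ B := by
    intro z hz
    by_cases hzV : (⟨z, hz⟩ : K) ∈ V
    · exact Or.inl ⟨_, hzV, rfl⟩
    · exact Or.inr ⟨_, hzV, rfl⟩
  have hxA : x ∈ A := ⟨_, hxV, rfl⟩
  have hyB : y ∈ B := ⟨_, hyV, rfl⟩
  obtain ⟨δ, hδ, hdis⟩ := hAB.exists_thickenings hAc hBc.isClosed
  obtain ⟨c, hc, hcK⟩ := near_inter hb hw (half_pos hδ)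
  have hthick : Metric.thickening (δ / 2) K ⊆ Metric.thickening (δ / 2) A ∪
      Metric.thickening (δ / 2) B := by
    refine (Metric.thickening_subset_of_subset _ hKAB).trans ?_
    rw [Metric.thickening_union]
  -- a large index
  have he1 : ∀ᶠ k in atTop, 1 / (((φ k : ℕ) : ℝ) + 1) < min c (δ / 2) :=
    hone.eventually (gt_mem_nhds (lt_min hc (half_pos hδ)))
  have he2 : ∀ᶠ k in atTop, X (φ k) ∈ Metric.ball x (δ / 2) :=
    hlx (Metric.ball_mem_nhds x (half_pos hδ))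
  have he3 : ∀ᶠ k in atTop, Y (φ k) ∈ Metric.ball y (δ / 2) :=
    hly (Metric.ball_mem_nhds y (half_pos hδ))
  obtain ⟨k, hk1, hk2, hk3⟩ := (he1.and (he2.and he3)).exists
  set κ := φ k
  have hmem : ∀ i : Fin (N κ + 1), b ((s κ i : ℚ) : ℝ) ∈ Metric.thickening (δ / 2) A ∪
      Metric.thickening (δ / 2) B := by
    intro i
    apply hthick
    exact hcK _ (D_mem _) _ (D_mem _) ((h1 κ i).trans (hk1.trans_le (min_le_left _ _)))
  have hnot : ∀ z, z ∈ Metric.thickening δ A → z ∈ Metric.thickening (δ / 2) B → False := by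
    intro z hz1 hz2
    exact Set.disjoint_left.1 hdis hz1 (Metric.thickening_mono (by linarith) _ hz2)
  have hind : ∀ i : ℕ, ∀ hi : i < N κ + 1,
      b ((s κ ⟨i, hi⟩ : ℚ) : ℝ) ∈ Metric.thickening (δ / 2) A := by
    intro i
    induction i with
    | zero =>
      intro hi
      rcases hmem ⟨0, hi⟩ with h | h
      · exact h
      · exfalso
        apply hnot _ _ h
        rw [Metric.mem_thickening_iff]
        refine ⟨x, hxA, ?_⟩
        rw [Metric.mem_ball] at hk2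
        have : X κ = b ((s κ ⟨0, hi⟩ : ℚ) : ℝ) := rfl
        rw [← this]
        linarith
    | succ i ih =>
      intro hi
      have hprev := ih (by omega)
      rcases hmem ⟨i + 1, hi⟩ with h | h
      · exact h
      · exfalso
        apply hnot _ _ h
        rw [Metric.mem_thickening_iff] at hprev ⊢
        obtain ⟨a, ha, hda⟩ := hprev
        refine ⟨a, ha, ?_⟩
        have h4 := h2 κ ⟨i, by omega⟩
        have h5 : dist (b ((s κ ⟨i, by omega⟩ : ℚ) : ℝ)) (b ((s κ ⟨i + 1, hi⟩ : ℚ) : ℝ)) <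
            δ / 2 := h4.trans (hk1.trans_le (min_le_right _ _))
        have h6 := dist_triangle_left (b ((s κ ⟨i + 1, hi⟩ : ℚ) : ℝ)) a
          (b ((s κ ⟨i, by omega⟩ : ℚ) : ℝ))
        linarith
  have hlast := hind (N κ) (by omega)
  have hYl : Y κ = b ((s κ ⟨N κ, by omega⟩ : ℚ) : ℝ) := rfl
  rw [← hYl] at hlast
  apply Set.disjoint_left.1 hdis (Metric.thickening_mono (by linarith) _ hlast)
  rw [Metric.mem_thickening_iff]
  refine ⟨y, hyB, ?_⟩
  rw [Metric.mem_ball] at hk3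
  linarith

/-- the chain characterisation -/
theorem hasC_iff {b w : ℝ → E} (hb : ContinuousOn b (Icc 0 1)) (hw : ContinuousOn w (Icc 0 1)) :
    HasC (b '' Icc 0 1 ∩ w '' Icc 0 1) ↔
      Ch (fun q : D => b ((q : ℚ) : ℝ)) (fun q : D => w ((q : ℚ) : ℝ)) :=
  ⟨ch_of_hasC hb hw, hasC_of_ch hb hw⟩

end Pool.Agent.BMD
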