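import Mathlib
import Pool.Agent.Lib_helper19.BMD.Chain

/-!
# Brownian dichotomy, part 2: the law of two independent planar Brownian motions on rational times
-/

set_option autoImplicit false

namespace Pool.Agent.BMD

open Set Filter Topology MeasureTheory ProbabilityTheory

/-- the hypotheses of the frozen statements S19417 and S19418 -/
structure BM {Ω : Type} [MeasurableSpace Ω] (P : Measure Ω) (Z : Fin 4 → ℝ → Ω → ℝ) : Prop where
  meas : ∀ i t, Measurable (Z i t)
  cont : ∀ i ω, ContinuousOn (fun t => Z i t ω) (Set.Icc (0:ℝ) 1)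
  zero : ∀ i ω, Z i 0 ω = 0
  incr : ∀ (n : ℕ) (t : Fin (n + 1) → ℝ), Monotone t → 0 ≤ t 0 → t (Fin.last n) ≤ 1 →
        iIndepFun
            (fun p : Fin 4 × Fin n => fun ω => Z p.1 (t p.2.succ) ω - Z p.1 (t p.2.castSucc) ω) P ∧
          ∀ (i : Fin 4) (k : Fin n),
            P.map (fun ω => Z i (t k.succ) ω - Z i (t k.castSucc) ω)
              = gaussianReal 0 (t k.succ - t k.castSucc).toNNReal

/-- the process on rational times -/
def path {Ω : Type} (Z : Fin 4 → ℝ → Ω → ℝ) (ω : Ω) (p : Fin 4 × D) : ℝ :=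
  Z p.1 ((p.2 : ℚ) : ℝ) ω

/-- the increment over `[k / M, (k + 1) / M]` -/
noncomputable def inc {Ω : Type} (Z : Fin 4 → ℝ → Ω → ℝ) (M : ℕ) (p : Fin 4 × Fin M) (ω : Ω) : ℝ :=
  Z p.1 (((p.2 : ℕ) + 1 : ℝ) / M) ω - Z p.1 (((p.2 : ℕ) : ℝ) / M) ω

/-- the value at time `j / M` as a function of the increments -/
def summ (M : ℕ) (x : Fin 4 × Fin M → ℝ) (i : Fin 4) (j : ℕ) : ℝ :=
  ∑ k ∈ Finset.range j, if h : k < M then x (i, ⟨k, h⟩) else 0

/-- common denominators -/
theorem exists_denom (I : Finset D) : ∃ M : ℕ, 0 < M ∧ ∀ q ∈ I, ∃ j : ℕ, j ≤ M ∧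
    (((q : ℚ) : ℝ)) = (j : ℝ) / M := by
  classical
  refine ⟨∏ q ∈ I, (q : ℚ).den, Finset.prod_pos fun q _ => (q : ℚ).den_pos, ?_⟩
  intro q hq
  obtain ⟨c, hc⟩ : (q : ℚ).den ∣ ∏ q ∈ I, (q : ℚ).den := Finset.dvd_prod_of_mem _ hq
  set M := ∏ q ∈ I, (q : ℚ).den with hM
  have hMpos : 0 < M := Finset.prod_pos fun q _ => (q : ℚ).den_pos
  have hden : ((q : ℚ).den : ℚ) ≠ 0 := by exact_mod_cast (q : ℚ).den_ne_zero
  obtain ⟨h0, h1⟩ := q.2
  have hnum : 0 ≤ (q : ℚ).num := Rat.num_nonneg.2 h0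
  obtain ⟨a, ha⟩ := Int.eq_ofNat_of_zero_le hnum
  have hq' : (q : ℚ) = (a : ℚ) / (q : ℚ).den := by
    conv_lhs => rw [← Rat.num_div_den (q : ℚ)]
    rw [ha]
    norm_num
  have hqM : (q : ℚ) = ((a * c : ℕ) : ℚ) / M := by
    have hcpos : (c : ℚ) ≠ 0 := by
      intro h
      have : c = 0 := by exact_mod_cast h
      rw [this, mul_zero] at hc
      omega
    rw [hc]
    conv_lhs => rw [hq']
    push_cast
    field_simp
  refine ⟨a * c, ?_, ?_⟩
  · have h2 : ((a * c : ℕ) : ℚ) / M ≤ 1 := by rw [← hqM]; exact h1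
    rw [div_le_one (by exact_mod_cast hMpos)] at h2
    exact_mod_cast h2
  · have := congrArg (fun x : ℚ => (x : ℝ)) hqM
    simpa using this

section
variable {Ω : Type} [MeasurableSpace Ω] {P : Measure Ω} {Z : Fin 4 → ℝ → Ω → ℝ}

theorem summ_inc (h : BM P Z) {M : ℕ} (i : Fin 4) {j : ℕ} (hj : j ≤ M) (ω : Ω) :
    summ M (fun p => inc Z M p ω) i j = Z i ((j : ℝ) / M) ω := by
  unfold summ
  have h1 : ∀ k ∈ Finset.range j, (if h : k < M then inc Z M (i, ⟨k, h⟩) ω else 0) =
      (fun k : ℕ => Z i ((k : ℝ) / M) ω) (k + 1) - (fun k : ℕ => Z i ((k : ℝ) / M) ω) k := by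
    intro k hk
    rw [Finset.mem_range] at hk
    have : k < M := by omega
    simp only [this, dif_pos, inc]
    push_cast
    rfl
  rw [Finset.sum_congr rfl h1, Finset.sum_range_sub (fun k : ℕ => Z i ((k : ℝ) / M) ω)]
  simp [h.zero]

theorem inc_grid (h : BM P Z) {M : ℕ} (hM : 0 < M) :
    iIndepFun (fun p : Fin 4 × Fin M => inc Z M p) P ∧
      ∀ p : Fin 4 × Fin M, P.map (inc Z M p) = gaussianReal 0 (1 / (M : ℝ)).toNNReal := by
  have hMr : (0 : ℝ) < M := by exact_mod_cast hM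
  obtain ⟨h1, h2⟩ := h.incr M (fun j => ((j : ℕ) : ℝ) / M)
    (fun a b hab => by
      have : ((a : ℕ) : ℝ) ≤ (b : ℕ) := by exact_mod_cast hab
      exact div_le_div_of_nonneg_right this hMr.le) (by simp)
    (by
      simp only [Fin.val_last]
      rw [div_self hMr.ne'])
  refine ⟨?_, ?_⟩
  · convert h1 using 3 with p
    simp [inc]
  · intro p
    have h3 := h2 p.1 p.2
    have h4 : (((p.2.succ : Fin (M + 1)) : ℕ) : ℝ) / M - ((p.2.castSucc : Fin (M + 1)) : ℕ) / M =
        1 / M := by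
      simp only [Fin.val_succ, Fin.val_castSucc]
      push_cast
      ring
    rw [h4] at h3
    rw [← h3]
    congr 1
    funext ω
    simp [inc]

theorem inc_meas (h : BM P Z) (M : ℕ) (p : Fin 4 × Fin M) : Measurable (inc Z M p) :=
  (h.meas _ _).sub (h.meas _ _)

theorem path_meas (h : BM P Z) : Measurable (path Z) :=
  measurable_pi_lambda _ fun p => h.meas _ _

theorem inc_law [IsProbabilityMeasure P] (h : BM P Z) {M : ℕ} (hM : 0 < M) :
    P.map (fun ω p => inc Z M p ω) =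
      Measure.pi (fun _ : Fin 4 × Fin M => gaussianReal 0 (1 / (M : ℝ)).toNNReal) := by
  have h1 := (iIndepFun_iff_map_fun_eq_pi_map
    (fun p => (inc_meas h M p).aemeasurable)).1 (inc_grid h hM).1
  rw [h1]
  congr 1
  funext p
  exact (inc_grid h hM).2 p

end

theorem summ_meas (M : ℕ) (i : Fin 4) (j : ℕ) :
    Measurable (fun x : Fin 4 × Fin M → ℝ => summ M x i j) := by
  unfold summ
  apply Finset.measurable_sum
  intro k _
  by_cases h : k < M
  · simp only [h, dif_pos]
    exact measurable_pi_apply _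
  · simp only [h, dif_neg, not_false_eq_true]
    exact measurable_const

/-- two setups have the same law on rational times -/
theorem law_eq {Ω Ω' : Type} [MeasurableSpace Ω] [MeasurableSpace Ω'] {P : Measure Ω}
    {P' : Measure Ω'} [IsProbabilityMeasure P] [IsProbabilityMeasure P']
    {Z : Fin 4 → ℝ → Ω → ℝ} {Z' : Fin 4 → ℝ → Ω' → ℝ} (h : BM P Z) (h' : BM P' Z') :
    P.map (path Z) = P'.map (path Z') := by
  classical
  have hmp := path_meas h
  have hmp' := path_meas h'
  have hfin : ∀ I : Finset (Fin 4 × D), (P.map (path Z)).map I.restrict =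
      (P'.map (path Z')).map I.restrict := by
    intro I
    obtain ⟨M, hM, hj⟩ := exists_denom (I.image Prod.snd)
    have hj' : ∀ p : I, ∃ j : ℕ, j ≤ M ∧ ((((p : Fin 4 × D).2 : ℚ) : ℝ)) = (j : ℝ) / M := fun p =>
      hj _ (Finset.mem_image_of_mem _ p.2)
    choose j hjM hjq using hj'
    set g : (Fin 4 × Fin M → ℝ) → (I → ℝ) := fun x p => summ M x (p : Fin 4 × D).1 (j p) with hg
    have hgm : Measurable g := measurable_pi_lambda _ fun p => summ_meas _ _ _
    have key : ∀ {Ω₀ : Type} [MeasurableSpace Ω₀] {P₀ : Measure Ω₀} [IsProbabilityMeasure P₀]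
        {Z₀ : Fin 4 → ℝ → Ω₀ → ℝ}, BM P₀ Z₀ → (P₀.map (path Z₀)).map I.restrict =
        (Measure.pi (fun _ : Fin 4 × Fin M => gaussianReal 0 (1 / (M : ℝ)).toNNReal)).map g := by
      intro Ω₀ _ P₀ _ Z₀ h₀
      rw [← inc_law h₀ hM, Measure.map_map hgm (measurable_pi_lambda _ (inc_meas h₀ M)),
        Measure.map_map (Finset.measurable_restrict I) (path_meas h₀)]
      congr 1
      funext ω p
      simp only [Function.comp, Finset.restrict, hg, path]
      rw [summ_inc h₀ _ (hjM p), ← hjq p]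
    rw [key h, key h']
  have : IsProbabilityMeasure (P'.map (path Z')) :=
    Measure.isProbabilityMeasure_map hmp'.aemeasurable
  have : ∀ I : Finset (Fin 4 × D), IsFiniteMeasure ((P'.map (path Z')).map I.restrict) :=
    fun I => inferInstance
  exact IsProjectiveLimit.unique (P := fun I => (P'.map (path Z')).map I.restrict)
    (fun I => hfin I) (fun I => rfl)

/-- the measurable set of paths which have the chain property -/
def A : Set (Fin 4 × D → ℝ) :=
  {v | Ch (fun q => (v (0, q), v (1, q))) (fun q => (v (2, q), v (3, q)))}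

theorem A_meas : MeasurableSet A := by
  have h0 : A = ⋃ m : ℕ, ⋂ k : ℕ, ⋃ N : ℕ, ⋃ s : Fin (N + 1) → D, ⋃ t : Fin (N + 1) → D,
      ((⋂ i : Fin (N + 1), {v : Fin 4 × D → ℝ | dist (v (0, s i), v (1, s i))
          (v (2, t i), v (3, t i)) < 1 / ((k : ℝ) + 1)}) ∩
        ((⋂ i : Fin N, {v : Fin 4 × D → ℝ | dist (v (0, s i.castSucc), v (1, s i.castSucc))
          (v (0, s i.succ), v (1, s i.succ)) < 1 / ((k : ℝ) + 1)}) ∩
        {v : Fin 4 × D → ℝ | 1 / ((m : ℝ) + 1) < dist (v (0, s 0), v (1, s 0))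
          (v (0, s (Fin.last N)), v (1, s (Fin.last N)))})) := by
    ext v
    simp only [A, Ch, mem_iUnion, mem_iInter, mem_inter_iff, mem_ofPred_eq]
  rw [h0]
  have hp : ∀ a b : Fin 4 × D, Measurable (fun v : Fin 4 × D → ℝ => ((v a, v b) : ℝ × ℝ)) :=
    fun a b => (measurable_pi_apply a).prodMk (measurable_pi_apply b)
  refine MeasurableSet.iUnion fun m => MeasurableSet.iInter fun k => MeasurableSet.iUnion fun N =>
    MeasurableSet.iUnion fun s => MeasurableSet.iUnion fun t => ?_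
  refine (MeasurableSet.iInter fun i => ?_).inter ((MeasurableSet.iInter fun i => ?_).inter ?_)
  · exact measurableSet_lt ((hp _ _).dist (hp _ _)) measurable_const
  · exact measurableSet_lt ((hp _ _).dist (hp _ _)) measurable_const
  · exact measurableSet_lt measurable_const ((hp _ _).dist (hp _ _))

end Pool.Agent.BMD
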