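import Mathlib
import Pool.Agent.Lib_helper19.BMD.Law

/-!
# Brownian dichotomy, part 3: scaling, independence, the zero-one law
-/

set_option autoImplicit false

namespace Pool.Agent.BMD

open Set Filter Topology MeasureTheory ProbabilityTheory

/-- the intersection of the two traces up to time `r` -/
def inter {Ω : Type} (Z : Fin 4 → ℝ → Ω → ℝ) (r : ℝ) (ω : Ω) : Set (ℝ × ℝ) :=
  (fun t => (Z 0 t ω, Z 1 t ω)) '' Set.Icc (0:ℝ) r ∩
    (fun t => (Z 2 t ω, Z 3 t ω)) '' Set.Icc (0:ℝ) r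

/-- Brownian scaling -/
noncomputable def scl {Ω : Type} (Z : Fin 4 → ℝ → Ω → ℝ) (r : ℝ) : Fin 4 → ℝ → Ω → ℝ :=
  fun i t ω => Z i (r * t) ω / √r

section
variable {Ω : Type} [MeasurableSpace Ω] {P : Measure Ω} {Z : Fin 4 → ℝ → Ω → ℝ}

theorem scl_bm (h : BM P Z) {r : ℝ} (hr : 0 < r) (hr1 : r ≤ 1) : BM P (scl Z r) := by
  have hs : 0 < √r := Real.sqrt_pos.2 hr
  refine ⟨fun i t => (h.meas i _).div_const _, ?_, ?_, ?_⟩
  · intro i ω
    have h1 : ContinuousOn (fun t => Z i (r * t) ω) (Icc (0 : ℝ) 1) := by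
      refine (h.cont i ω).comp (by fun_prop : ContinuousOn (fun t : ℝ => r * t) (Icc 0 1)) ?_
      intro t ht
      exact ⟨mul_nonneg hr.le ht.1, mul_le_one₀ hr1 ht.1 ht.2⟩
    exact h1.div_const _
  · intro i ω
    simp [scl, h.zero]
  · intro n t ht ht0 ht1
    obtain ⟨h1, h2⟩ := h.incr n (fun j => r * t j)
      (fun a b hab => mul_le_mul_of_nonneg_left (ht hab) hr.le) (mul_nonneg hr.le ht0)
      (mul_le_one₀ hr1 (ht0.trans (ht (Fin.zero_le _))) ht1)
    refine ⟨?_, ?_⟩
    · have h3 := h1.comp (fun _ x => x / √r) (fun _ => measurable_id.div_const _)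
      convert h3 using 3 with p
      simp only [scl, Function.comp]
      ring
    · intro i k
      have h4 : (fun ω => scl Z r i (t k.succ) ω - scl Z r i (t k.castSucc) ω) =
          (fun x => x / √r) ∘ fun ω => Z i (r * t k.succ) ω - Z i (r * t k.castSucc) ω := by
        funext ω
        simp only [scl, Function.comp]
        ring
      have h7 : Measurable (fun x : ℝ => x / √r) := by fun_prop
      have h8 : Measurable (fun ω => Z i (r * t k.succ) ω - Z i (r * t k.castSucc) ω) :=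
        (h.meas _ _).sub (h.meas _ _)
      rw [h4, ← Measure.map_map h7 h8, h2 i k, gaussianReal_map_div_const]
      congr 1
      · simp
      · ext
        have h5 : 0 ≤ t k.succ - t k.castSucc := sub_nonneg.2 (ht (Fin.castSucc_lt_succ).le)
        have h6 : 0 ≤ r * t k.succ - r * t k.castSucc := by
          rw [← mul_sub]; exact mul_nonneg hr.le h5
        rw [NNReal.coe_div, Real.coe_toNNReal _ h6, Real.coe_toNNReal _ h5]
        simp only [NNReal.coe_mk]
        rw [Real.sq_sqrt hr.le, ← mul_sub]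
        field_simp

theorem hasC_image {E F : Type} [TopologicalSpace E] [TopologicalSpace F] {f : E → F}
    (hf : Continuous f) (hi : Function.Injective f) {K : Set E} (h : HasC K) : HasC (f '' K) := by
  obtain ⟨C, hCK, hC, hn⟩ := h
  exact ⟨f '' C, image_mono hCK, hC.image _ hf.continuousOn, hn.image hi⟩

theorem inter_scl {r : ℝ} (hr : 0 < r) (ω : Ω) :
    inter (scl Z r) 1 ω = (fun p : ℝ × ℝ => (√r)⁻¹ • p) '' inter Z r ω := by
  have hs : 0 < √r := Real.sqrt_pos.2 hr
  have hinj : Function.Injective (fun p : ℝ × ℝ => (√r)⁻¹ • p) :=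
    smul_right_injective _ (inv_ne_zero hs.ne')
  have h1 : ∀ a b : Fin 4, (fun t => (scl Z r a t ω, scl Z r b t ω)) '' Icc (0 : ℝ) 1 =
      (fun p : ℝ × ℝ => (√r)⁻¹ • p) '' ((fun t => (Z a t ω, Z b t ω)) '' Icc (0 : ℝ) r) := by
    intro a b
    rw [image_image]
    ext p
    constructor
    · rintro ⟨t, ht, rfl⟩
      refine ⟨r * t, ⟨mul_nonneg hr.le ht.1, mul_le_of_le_one_right hr.le ht.2⟩, ?_⟩
      simp only [scl, Prod.smul_mk, smul_eq_mul, div_eq_inv_mul]
    · rintro ⟨t, ht, rfl⟩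
      refine ⟨t / r, ⟨div_nonneg ht.1 hr.le, (div_le_one hr).2 ht.2⟩, ?_⟩
      simp only [scl, Prod.smul_mk, smul_eq_mul, div_eq_inv_mul]
      have : r * (r⁻¹ * t) = t := by field_simp
      rw [this]
  unfold inter
  rw [h1, h1, image_inter hinj]

theorem hasC_scl {r : ℝ} (hr : 0 < r) (ω : Ω) :
    HasC (inter (scl Z r) 1 ω) ↔ HasC (inter Z r ω) := by
  have hs : 0 < √r := Real.sqrt_pos.2 hr
  rw [inter_scl hr]
  constructor
  · intro h
    have h2 := hasC_image (f := fun p : ℝ × ℝ => √r • p) (by fun_prop)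
      (smul_right_injective _ hs.ne') h
    rw [image_image] at h2
    have h3 : (fun p : ℝ × ℝ => √r • (√r)⁻¹ • p) = id := by
      funext p
      rw [smul_smul, mul_inv_cancel₀ hs.ne', one_smul, id]
    simpa [h3] using h2
  · intro h
    exact hasC_image (f := fun p : ℝ × ℝ => (√r)⁻¹ • p) (by fun_prop)
      (smul_right_injective _ (inv_ne_zero hs.ne')) h

theorem hasC_path (h : BM P Z) (ω : Ω) : HasC (inter Z 1 ω) ↔ path Z ω ∈ A := by
  have hb : ContinuousOn (fun t => (Z 0 t ω, Z 1 t ω)) (Icc (0 : ℝ) 1) :=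
    (h.cont 0 ω).prodMk (h.cont 1 ω)
  have hw : ContinuousOn (fun t => (Z 2 t ω, Z 3 t ω)) (Icc (0 : ℝ) 1) :=
    (h.cont 2 ω).prodMk (h.cont 3 ω)
  exact hasC_iff hb hw

theorem hasC_path_r (h : BM P Z) {r : ℝ} (hr : 0 < r) (hr1 : r ≤ 1) (ω : Ω) :
    HasC (inter Z r ω) ↔ path (scl Z r) ω ∈ A := by
  rw [← hasC_scl hr, hasC_path (scl_bm h hr hr1)]

theorem inter_mono {r s : ℝ} (hrs : r ≤ s) (ω : Ω) : inter Z r ω ⊆ inter Z s ω :=
  inter_subset_inter (image_mono (Icc_subset_Icc_right hrs))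
    (image_mono (Icc_subset_Icc_right hrs))

theorem hasC_mono {E : Type} [TopologicalSpace E] {K L : Set E} (hKL : K ⊆ L) (h : HasC K) :
    HasC L := by
  obtain ⟨C, hC, h1, h2⟩ := h
  exact ⟨C, hC.trans hKL, h1, h2⟩

end

/-! ### Independence of the past and the increments -/

/-- the time `a = 1 / (n + 1)` -/
noncomputable def aa (n : ℕ) : ℝ := 1 / ((n : ℝ) + 1)

theorem aa_pos (n : ℕ) : 0 < aa n := by unfold aa; positivity

theorem aa_le (n : ℕ) : aa n ≤ 1 := by
  unfold aa
  rw [div_le_one (by positivity)]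
  have : (0 : ℝ) ≤ n := Nat.cast_nonneg n
  linarith

theorem aa_anti {m n : ℕ} (h : m ≤ n) : aa n ≤ aa m := by
  unfold aa
  have : (m : ℝ) ≤ n := by exact_mod_cast h
  exact one_div_le_one_div_of_le (by positivity) (by linarith)

theorem aa_tendsto : Tendsto aa atTop (𝓝 0) := tendsto_one_div_add_atTop_nhds_zero_nat

/-- the rational time `a` as an element of `D` -/
theorem aa_D (n : ℕ) : ∃ q : D, ((q : ℚ) : ℝ) = aa n := by
  refine ⟨⟨1 / ((n : ℚ) + 1), by positivity, ?_⟩, ?_⟩
  · rw [div_le_one (by positivity)]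
    have : (0 : ℚ) ≤ n := Nat.cast_nonneg n
    linarith
  · unfold aa
    push_cast
    rfl

/-- the increments after time `a` -/
noncomputable def aft {Ω : Type} (Z : Fin 4 → ℝ → Ω → ℝ) (n : ℕ) (p : Fin 4 × D) (ω : Ω) : ℝ :=
  Z p.1 (max (aa n) ((p.2 : ℚ) : ℝ)) ω - Z p.1 (aa n) ω

/-- the path before time `a` -/
noncomputable def bef {Ω : Type} (Z : Fin 4 → ℝ → Ω → ℝ) (n : ℕ) (p : Fin 4 × D) (ω : Ω) : ℝ :=
  Z p.1 (aa n * ((p.2 : ℚ) : ℝ)) ω

section
variable {Ω : Type} [MeasurableSpace Ω] {P : Measure Ω} {Z : Fin 4 → ℝ → Ω → ℝ}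

theorem aft_meas (h : BM P Z) (n : ℕ) (p : Fin 4 × D) : Measurable (aft Z n p) :=
  (h.meas _ _).sub (h.meas _ _)

theorem bef_meas (h : BM P Z) (n : ℕ) (p : Fin 4 × D) : Measurable (bef Z n p) := h.meas _ _

theorem indep_bef_aft [IsProbabilityMeasure P] (h : BM P Z) (n : ℕ) :
    IndepFun (fun ω p => bef Z n p ω) (fun ω p => aft Z n p ω) P := by
  classical
  refine IndepFun.process_indepFun_process (bef_meas h n) (aft_meas h n) ?_
  intro I J
  obtain ⟨qa, hqa⟩ := aa_D n
  -- products and maxima are rational times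
  have hprod : ∀ q : D, ∃ q' : D, ((q' : ℚ) : ℝ) = aa n * ((q : ℚ) : ℝ) := by
    intro q
    refine ⟨⟨(qa : ℚ) * (q : ℚ), mul_nonneg qa.2.1 q.2.1,
      mul_le_one₀ qa.2.2 q.2.1 q.2.2⟩, ?_⟩
    push_cast
    rw [hqa]
  have hmax : ∀ q : D, ∃ q' : D, ((q' : ℚ) : ℝ) = max (aa n) ((q : ℚ) : ℝ) := by
    intro q
    refine ⟨⟨max (qa : ℚ) (q : ℚ), le_max_of_le_left qa.2.1, max_le qa.2.2 q.2.2⟩, ?_⟩
    push_cast
    rw [hqa]
  choose fp hfp using hprod
  choose fm hfm using hmax
  obtain ⟨M, hM, hj⟩ := exists_denom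
    (insert qa ((I.image fun p => fp p.2) ∪ J.image fun p => fm p.2))
  have hMr : (0 : ℝ) < M := by exact_mod_cast hM
  obtain ⟨ja, hjaM, hja⟩ := hj qa (Finset.mem_insert_self _ _)
  rw [hqa] at hja
  have hI : ∀ p : I, ∃ j : ℕ, j ≤ M ∧ j ≤ ja ∧ aa n * ((((p : Fin 4 × D).2 : ℚ)) : ℝ) = (j : ℝ) / M := by
    intro p
    obtain ⟨j, hjM, hjq⟩ := hj (fp (p : Fin 4 × D).2) (Finset.mem_insert_of_mem
      (Finset.mem_union_left _ (Finset.mem_image.2 ⟨p, p.2, rfl⟩)))
    rw [hfp] at hjq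
    refine ⟨j, hjM, ?_, hjq⟩
    have h1 : (j : ℝ) / M ≤ (ja : ℝ) / M := by
      rw [← hjq, ← hja]
      exact mul_le_of_le_one_right (aa_pos n).le (D_mem _).2
    rw [div_le_div_iff_of_pos_right hMr] at h1
    exact_mod_cast h1
  have hJ : ∀ p : J, ∃ j : ℕ, j ≤ M ∧ ja ≤ j ∧
      max (aa n) ((((p : Fin 4 × D).2 : ℚ)) : ℝ) = (j : ℝ) / M := by
    intro p
    obtain ⟨j, hjM, hjq⟩ := hj (fm (p : Fin 4 × D).2) (Finset.mem_insert_of_mem
      (Finset.mem_union_right _ (Finset.mem_image.2 ⟨p, p.2, rfl⟩)))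
    rw [hfm] at hjq
    refine ⟨j, hjM, ?_, hjq⟩
    have h1 : (ja : ℝ) / M ≤ (j : ℝ) / M := by
      rw [← hjq, ← hja]
      exact le_max_left _ _
    rw [div_le_div_iff_of_pos_right hMr] at h1
    exact_mod_cast h1
  choose jI hjIM hjIa hjI using hI
  choose jJ hjJM hjJa hjJ using hJ
  set S : Finset (Fin 4 × Fin M) := Finset.univ.filter fun p => (p.2 : ℕ) < ja with hS
  set T : Finset (Fin 4 × Fin M) := Finset.univ.filter fun p => ja ≤ (p.2 : ℕ) with hT
  have hST : Disjoint S T := by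
    rw [Finset.disjoint_left]
    intro p hp hp'
    simp only [hS, hT, Finset.mem_filter, Finset.mem_univ, true_and] at hp hp'
    omega
  have hind := (inc_grid h hM).1.indepFun_finset S T hST (inc_meas h M)
  -- the two functions
  set gI : (S → ℝ) → (I → ℝ) := fun x p => ∑ k ∈ Finset.range (jI p),
    if hk : k < M ∧ k < ja then x ⟨((p : Fin 4 × D).1, ⟨k, hk.1⟩), by simp [hS, hk.2]⟩ else 0 with hgI
  set gJ : (T → ℝ) → (J → ℝ) := fun x p => ∑ k ∈ Finset.Ico ja (jJ p),
    if hk : k < M ∧ ja ≤ k then x ⟨((p : Fin 4 × D).1, ⟨k, hk.1⟩), by simp [hT, hk.2]⟩ else 0 with hgJ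
  have hgIm : Measurable gI := by
    refine measurable_pi_lambda _ fun p => Finset.measurable_sum _ fun k _ => ?_
    by_cases hk : k < M ∧ k < ja
    · simp only [hk, and_self, dif_pos]
      exact measurable_pi_apply _
    · simp only [hk, dif_neg, not_false_eq_true]
      exact measurable_const
  have hgJm : Measurable gJ := by
    refine measurable_pi_lambda _ fun p => Finset.measurable_sum _ fun k _ => ?_
    by_cases hk : k < M ∧ ja ≤ k
    · simp only [hk, and_self, dif_pos]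
      exact measurable_pi_apply _
    · simp only [hk, dif_neg, not_false_eq_true]
      exact measurable_const
  have hfin := hind.comp hgIm hgJm
  have e1 : (gI ∘ fun ω (i : S) => inc Z M i ω) = fun ω (i : I) => bef Z n i ω := by
    funext ω p
    simp only [Function.comp, hgI, bef]
    rw [hjI p, ← summ_inc h _ (hjIM p) ω]
    unfold summ
    apply Finset.sum_congr rfl
    intro k hk
    rw [Finset.mem_range] at hk
    have h1 : k < M := by have := hjIM p; omega
    have h2 : k < ja := by have := hjIa p; omega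
    simp only [h1, h2, and_self, dif_pos]
  have e2 : (gJ ∘ fun ω (i : T) => inc Z M i ω) = fun ω (i : J) => aft Z n i ω := by
    funext ω p
    simp only [Function.comp, hgJ, aft]
    rw [hjJ p, hja, ← summ_inc h _ (hjJM p) ω, ← summ_inc h _ hjaM ω]
    unfold summ
    rw [← Finset.sum_range_add_sum_Ico _ (hjJa p), add_sub_cancel_left]
    apply Finset.sum_congr rfl
    intro k hk
    rw [Finset.mem_Ico] at hk
    have h1 : k < M := by have := hjJM p; omega
    simp only [h1, hk.1, and_self, dif_pos]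
  rw [e1, e2] at hfin
  exact hfin

/-! ### The zero-one law -/

/-- the probability of the event, up to time `r`, does not depend on `r` nor on the setup -/
theorem prob_r [IsProbabilityMeasure P] (h : BM P Z) {r : ℝ} (hr : 0 < r) (hr1 : r ≤ 1) :
    MeasurableSet {ω | HasC (inter Z r ω)} ∧
      P {ω | HasC (inter Z r ω)} = (P.map (path Z)) A := by
  have h1 := scl_bm h hr hr1
  have h2 : {ω | HasC (inter Z r ω)} = path (scl Z r) ⁻¹' A := by
    ext ω
    exact hasC_path_r h hr hr1 ω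
  rw [h2]
  refine ⟨path_meas h1 A_meas, ?_⟩
  rw [← Measure.map_apply (path_meas h1) A_meas, law_eq h1 h]

theorem zero_one [IsProbabilityMeasure P] (h : BM P Z) :
    (P.map (path Z)) A = 0 ∨ (P.map (path Z)) A = 1 := by
  classical
  set E : ℝ → Set Ω := fun r => {ω | HasC (inter Z r ω)} with hE
  have hEm : ∀ r, 0 < r → r ≤ 1 → MeasurableSet (E r) := fun r h0 h1 => (prob_r h h0 h1).1
  have hEp : ∀ r, 0 < r → r ≤ 1 → P (E r) = (P.map (path Z)) A := fun r h0 h1 =>
    (prob_r h h0 h1).2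
  have hEsub : ∀ r, r ≤ 1 → E r ⊆ E 1 := fun r h1 ω hω => hasC_mono (inter_mono h1 ω) hω
  rw [← hEp 1 one_pos le_rfl]
  -- `E r = E 1` almost surely
  have hae : ∀ n, (E (aa n) : Set Ω) =ᵐ[P] (E 1 : Set Ω) := fun n =>
    ae_eq_of_subset_of_measure_ge (hEsub _ (aa_le n))
      (by rw [hEp _ (aa_pos n) (aa_le n), hEp 1 one_pos le_rfl])
      (hEm _ (aa_pos n) (aa_le n)).nullMeasurableSet (measure_ne_top P _)
  -- the sigma-algebras
  set m : ℕ → MeasurableSpace Ω := fun n =>
    MeasurableSpace.comap (fun ω p => aft Z n p ω) inferInstance with hm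
  have hmle : ∀ n, m n ≤ ‹MeasurableSpace Ω› := fun n =>
    (measurable_pi_lambda _ (aft_meas h n)).comap_le
  have hgle : MeasurableSpace.generateFrom {E 1} ≤ ‹MeasurableSpace Ω› := by
    apply MeasurableSpace.generateFrom_le
    rintro _ rfl
    exact hEm 1 one_pos le_rfl
  have hmono : Monotone m := by
    intro n k hnk
    have hle := aa_anti hnk
    obtain ⟨qn, hqn⟩ := aa_D n
    have hmx : ∀ q : D, ∃ q' : D, ((q' : ℚ) : ℝ) = max (aa n) ((q : ℚ) : ℝ) := by
      intro q
      refine ⟨⟨max (qn : ℚ) (q : ℚ), le_max_of_le_left qn.2.1, max_le qn.2.2 q.2.2⟩, ?_⟩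
      push_cast
      rw [hqn]
    choose fm hfm using hmx
    set φ : (Fin 4 × D → ℝ) → (Fin 4 × D → ℝ) := fun v p => v (p.1, fm p.2) - v (p.1, qn) with hφ
    have hφm : Measurable φ := measurable_pi_lambda _ fun p =>
      (measurable_pi_apply _).sub (measurable_pi_apply _)
    have hcomp : (fun ω p => aft Z n p ω) = φ ∘ fun ω p => aft Z k p ω := by
      funext ω p
      simp only [hφ, Function.comp, aft, hfm, hqn]
      rw [max_eq_right (hle.trans (le_max_left _ _)), max_eq_right hle]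
      ring
    simp only [hm]
    rw [hcomp, ← MeasurableSpace.comap_comp]
    exact MeasurableSpace.comap_mono hφm.comap_le
  have hind : ∀ n, Indep (m n) (MeasurableSpace.generateFrom {E 1}) P := by
    intro n
    have h1 := indep_bef_aft h n
    refine IndepSets.indep (hmle n) hgle (@MeasurableSpace.isPiSystem_measurableSet Ω (m n))
      (IsPiSystem.singleton _) (@MeasurableSpace.generateFrom_measurableSet Ω (m n)).symm rfl ?_
    rw [IndepSets_iff]
    rintro t1 _ ht1 rfl
    have hbef : ∃ B : Set (Fin 4 × D → ℝ), MeasurableSet B ∧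
        E (aa n) = (fun ω p => bef Z n p ω) ⁻¹' B := by
      refine ⟨(fun v p => v p / √(aa n)) ⁻¹' A, ?_, ?_⟩
      · exact (measurable_pi_lambda _ fun p => (measurable_pi_apply p).div_const _) A_meas
      · ext ω
        exact hasC_path_r h (aa_pos n) (aa_le n) ω
    obtain ⟨B, hB, hEB⟩ := hbef
    obtain ⟨T, hT, rfl⟩ := ht1
    have h2 := (h1.symm.measure_inter_preimage_eq_mul T B hT hB)
    rw [← hEB] at h2
    rw [measure_congr ((ae_eq_refl _).inter (hae n).symm), h2, measure_congr (hae n)]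
  have hsup := indep_iSup_of_directed_le hind hmle hgle hmono.directed_le
  -- the path is measurable with respect to the supremum
  have hpath : Measurable[⨆ n, m n] (path Z) := by
    refine @measurable_pi_lambda _ _ _ (⨆ n, m n) _ _ fun p => ?_
    have hlim : ∀ ω, Tendsto (fun n => aft Z n p ω) atTop (𝓝 (path Z ω p)) := by
      intro ω
      have hc := h.cont p.1 ω
      have hq := D_mem p.2
      have h1 : Tendsto (fun n => Z p.1 (aa n) ω) atTop (𝓝 (Z p.1 0 ω)) := by
        have h2 : Tendsto aa atTop (𝓝[Icc 0 1] 0) :=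
          tendsto_nhdsWithin_iff.2 ⟨aa_tendsto, Eventually.of_forall fun n =>
            ⟨(aa_pos n).le, aa_le n⟩⟩
        exact (hc 0 ⟨le_rfl, zero_le_one⟩).tendsto.comp h2
      have h3 : Tendsto (fun n => Z p.1 (max (aa n) ((p.2 : ℚ) : ℝ)) ω) atTop
          (𝓝 (Z p.1 ((p.2 : ℚ) : ℝ) ω)) := by
        have h4 : Tendsto (fun n => max (aa n) ((p.2 : ℚ) : ℝ)) atTop (𝓝 ((p.2 : ℚ) : ℝ)) := by
          have := aa_tendsto.max (tendsto_const_nhds (x := ((p.2 : ℚ) : ℝ)))
          rwa [max_eq_right hq.1] at this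
        have h5 : Tendsto (fun n => max (aa n) ((p.2 : ℚ) : ℝ)) atTop
            (𝓝[Icc 0 1] ((p.2 : ℚ) : ℝ)) :=
          tendsto_nhdsWithin_iff.2 ⟨h4, Eventually.of_forall fun n =>
            ⟨le_max_of_le_left (aa_pos n).le, max_le (aa_le n) hq.2⟩⟩
        exact (hc _ hq).tendsto.comp h5
      have h6 := h3.sub h1
      rw [h.zero, sub_zero] at h6
      exact h6
    refine @measurable_of_tendsto_metrizable Ω ℝ (⨆ n, m n) _ _ _ _ (fun n => aft Z n p) _ ?_
      (tendsto_pi_nhds.2 hlim)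
    intro n
    have h7 : Measurable[m n] (fun ω p => aft Z n p ω) := comap_measurable _
    exact ((measurable_pi_apply p).comp h7).mono (le_iSup m n) le_rfl
  have hE1 : MeasurableSet[⨆ n, m n] (E 1) := by
    have h8 : E 1 = path Z ⁻¹' A := by
      ext ω
      exact hasC_path h ω
    rw [h8]
    exact hpath A_meas
  have hself : IndepSet (E 1) (E 1) P := by
    apply hsup.indepSet_of_measurableSet hE1
    exact MeasurableSpace.measurableSet_generateFrom rfl
  exact measure_eq_zero_or_one_of_indepSet_self hself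

end

end Pool.Agent.BMD
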